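import Pool.Agent.Lib.MP_56ee40_nt.Final

/-!
# Bateman's question: only finitely many primes have two representations

A representation of `N` is a triple `(p, r, d)` with `p` prime, `r ≥ 3`, `d ≥ 1` and
`N = (p^r - 1)/(p^d - 1)`.  We prove that only finitely many primes `N` have two different
representations.

Outline (files in `Pool/Agent/Lib/MP_56ee40_nt/`).  Two representations lead to coprime prime powers
`x < y` with `1 + x + ... + x^(2k) = N = 1 + y + ... + y^(2l)` (`Red`).  With `A = x(y-1)`,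
`B = y(x-1)`, `C = y - x`, `X = x^k`, `Y = y^l` one has `A X² = B Y² + C`, and `X ≡ ±1 mod y` since `y`
is a prime power.  Put `z₀ = (√A-√C)/√B` and `z = (√A X ∓ √C)/(√B Y)`.
* `Integ`: the denominators of `z₀^(2s-j) z^j` in `ℤ[√(AC)]` are only `y^|s+lj| (x-1)^(|s|+|j|)`.
* `RClose`, `PClose`: `(z₀, z)` is close to `(1, 1)` at the real place and to `(i, ±i)` at the place
  dividing `x`.
* `Siegel`, `REst`, `UEst`, `ZL` (zero estimate through Wronskians), `NormIneq`, `MainL`: a
  Thue-Siegel argument, giving a contradiction for `x ≥ 2^500000`, `l ≥ 10^4`; the same lemma with an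
  earlier solution as anchor gives finiteness for fixed `(x, y)` (`Anchor`, `CE`).
* `DMain`: for fixed `x` no solutions with `y` and `l` large.
* `F1`, `RungeA`, `RungeB`, `F3`: `y ≤ (4x)^(l+1)` and Runge's method give finiteness for fixed `l`.
-/

namespace Pool.Agent.Results.MP_56ee40_nt.FinitelyManyPrimes

/-- Only finitely many primes `N` have two different representations `(p, r, d)`,
`N = (p^r - 1)/(p^d - 1)`, `p` prime, `r ≥ 3`, `d ≥ 1`. -/
theorem result :
    {N : ℕ | N.Prime ∧ ∃ p r d p' r' d' : ℕ,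
      p.Prime ∧ 3 ≤ r ∧ 1 ≤ d ∧
      p'.Prime ∧ 3 ≤ r' ∧ 1 ≤ d' ∧
      (p, r, d) ≠ (p', r', d') ∧
      N * (p ^ d - 1) = p ^ r - 1 ∧
      N * (p' ^ d' - 1) = p' ^ r' - 1}.Finite :=
  Pool.Agent.TwoRep.final_finite

end Pool.Agent.Results.MP_56ee40_nt.FinitelyManyPrimes
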